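import Mathlib

namespace Pool.Agent.Results.MP_e6b5d0_co.No

open Function Relation Set SimpleGraph

section
variable {V : Type} (G : SimpleGraph V)

def Ray (r : ℕ → V) : Prop := Injective r ∧ ∀ n, G.Adj (r n) (r (n + 1))

/-- No finite vertex set separates the tails of `r` and `r'`. -/
def Eqv (r r' : ℕ → V) : Prop :=
  ∀ S : Set V, S.Finite → ∃ N, ∀ m ≥ N, ∀ n ≥ N, ∃ p : G.Walk (r m) (r' n), ∀ v ∈ p.support, v ∉ S

def TwoEnded : Prop :=
  ∃ r₁ r₂, Ray G r₁ ∧ Ray G r₂ ∧ ¬ Eqv G r₁ r₂ ∧ ∀ r, Ray G r → Eqv G r r₁ ∨ Eqv G r r₂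

end

abbrev P := Fin 5 × Bool

def pa (a b : P) : Prop :=
  if a.2 = b.2 then a.1 = b.1 + (if a.2 then 2 else 1) ∨ b.1 = a.1 + (if a.2 then 2 else 1)
  else a.1 = b.1

instance : DecidableRel pa := fun a b => by unfold pa; infer_instance

lemma ps : ∀ {a b}, pa a b → pa b a := by decide +kernel

lemma pi : ∀ a, ¬ pa a a := by decide +kernel

lemma pt (a b : P) : ∃ σ : P ≃ P, (∀ p q, pa (σ p) (σ q) ↔ pa p q) ∧ σ a = b := by
  obtain ⟨c, β, h, i, e⟩ : ∃ (c : Fin 5) (β : Bool), let τ := fun p : P =>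
      if β then (2 * p.1 + c, !p.2) else (p.1 + c, p.2)
      (∀ p q, pa (τ p) (τ q) ↔ pa p q) ∧ Bijective τ ∧ τ a = b := by
    revert a b; decide +kernel
  exact ⟨.ofBijective _ i, h, e⟩

lemma pf (σ : P → P) (h : ∀ p q, pa p q → pa (σ p) (σ q)) (i : ∀ p, σ (σ p) = p) :
    ∃ p, σ p = p := by
  by_contra! c
  have u : ∀ a b, a ≠ b → ¬ pa a b → ∃ w, pa a w ∧ pa b w ∧ ∀ z, pa a z → pa b z → z = w := by
    decide +kernel
  have t : ∀ a b c, pa a b → pa a c → ¬ pa b c := by decide +kernel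
  have a : ∀ v, pa v (σ v) := fun v => by_contra fun n => by
    obtain ⟨w, a, b, e⟩ := u _ _ (c v).symm n
    exact c w (e _ (i v ▸ h _ _ b) (h _ _ a))
  obtain ⟨w, b, d⟩ : ∃ w, pa (0, true) w ∧ w ≠ σ (0, true) := by
    generalize σ (0, true) = z; revert z; decide +kernel
  obtain ⟨z, -, -, e⟩ := u (0, true) (σ w) (fun e => d (by rw [e, i])) fun e => t _ _ _ b e (a w)
  exact d ((e _ b (ps (a w))).trans (e _ (a _) (ps (h _ _ b))).symm)

variable {r : ℕ}

abbrev V (r : ℕ) := ℤ × (ZMod (r + 2) → P)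

def PE (u v : V r) : Prop :=
  v.1 = u.1 ∧ pa (u.2 u.1) (v.2 u.1) ∧ ∀ j, j ≠ (u.1 : ZMod (r + 2)) → u.2 j = v.2 j

def Arc (u v : V r) : Prop := v.1 = u.1 + 1 ∧ ∀ j, j ≠ (u.1 : ZMod (r + 2)) → u.2 j = v.2 j

lemma PE.symm {u v : V r} (h : PE u v) : PE v u :=
  ⟨h.1.symm, h.1 ▸ ps h.2.1, fun j e => (h.2.2 j (h.1 ▸ e)).symm⟩

def G (r : ℕ) : SimpleGraph (V r) where
  Adj u v := PE u v ∨ Arc u v ∨ Arc v u
  symm := ⟨fun _ _ h => h.imp .symm .symm⟩
  loopless := ⟨by rintro u (h | h | h); exacts [pi _ h.2.1, by simpa using h.1, by simpa using h.1]⟩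

lemma reg (u : V r) : ((G r).neighborSet u).ncard = 23 := by
  obtain ⟨i, x⟩ := u
  have : (G r).neighborSet (i, x) = range (Sum.elim
      (fun p : {p // pa (x i) p} => (i, update x i p)) (Sum.elim
      (fun p : P => (i + 1, update x i p)) fun p : P => (i - 1, update x (i - 1 : ℤ) p))) := by
    ext ⟨k, y⟩
    constructor
    · rintro (⟨rfl, a, b⟩ | ⟨rfl, b⟩ | ⟨a, b⟩)
      · exact ⟨.inl ⟨_, a⟩, Prod.ext rfl (update_eq_iff.2 ⟨rfl, b⟩)⟩
      · exact ⟨.inr (.inl _), Prod.ext rfl (update_eq_iff.2 ⟨rfl, b⟩)⟩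
      · obtain rfl : k = i - 1 := by simp at a; omega
        exact ⟨.inr (.inr _), Prod.ext rfl (update_eq_iff.2 ⟨rfl, fun j e => (b j e).symm⟩)⟩
    · rintro ⟨p | p | p, e⟩ <;> cases e
      · exact .inl ⟨rfl, by simpa using p.2, fun j e => (update_of_ne e _ _).symm⟩
      · exact .inr (.inl ⟨rfl, fun j e => (update_of_ne e _ _).symm⟩)
      · exact .inr (.inr ⟨by simp, fun j e => update_of_ne e _ _⟩)
  rw [this, ncard_range_of_injective]
  · simp only [Nat.card_eq_fintype_card, Fintype.card_sum]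
    generalize x i = a
    revert a
    decide +kernel
  rintro (p | p | p) (q | q | q) e <;> simp [Prod.ext_iff, Subtype.ext_iff] at e ⊢ <;>
    first | omega | exact Prod.ext_iff.1 (update_injective x _ e)

lemma vt (u v : V r) : ∃ φ : G r ≃g G r, φ u = v := by
  obtain ⟨c, hc⟩ : ∃ c, v.1 = u.1 + c := ⟨v.1 - u.1, by ring⟩
  choose σ h e using fun j => pt (u.2 (j - c)) (v.2 j)
  have ag : ∀ (i : ℤ) (x y : ZMod (r + 2) → P), (∀ j, j ≠ ((i + c : ℤ) : ZMod (r + 2)) →
      σ j (x (j - c)) = σ j (y (j - c))) ↔ ∀ j, j ≠ (i : ZMod (r + 2)) → x j = y j := fun i x y =>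
    ⟨fun a j b => by simpa using a (j + c) (by simpa), fun a j b =>
      congrArg _ (a _ (by simpa [sub_eq_iff_eq_add] using b))⟩
  refine ⟨⟨⟨fun w => (w.1 + c, fun j => σ j (w.2 (j - c))),
    fun w => (w.1 - c, fun j => (σ (j + c)).symm (w.2 (j + c))), fun w => by simp,
    fun w => by simp⟩, fun {a b} => ?_⟩, Prod.ext hc.symm (funext e)⟩
  simp only [G, PE, Arc, Equiv.coe_fn_mk, ag, h, add_left_inj, add_right_comm _ c]
  simp

lemma cn {u v w : V r} (h : Arc u v) (a : (G r).Adj u w) (b : (G r).Adj v w) : PE u w := by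
  have := h.1
  obtain a | a | a := a
  · exact a
  · obtain b | b | b := b
    · have e : (v.1 : ZMod (r + 2)) ≠ u.1 := by
        have : Fact (1 < r + 2) := ⟨by omega⟩
        simp [this, h.1]
      exact (pi _ ((h.2 _ e).symm.trans (a.2 _ e) ▸ b.2.1)).elim
    all_goals have := a.1; have := b.1; omega
  · obtain b | b | b := b <;> have := a.1 <;> have := b.1 <;> omega

lemma pe {u v : V r} : PE u v ↔ (G r).Adj u v ∧
    ∃ f : P → V r, Injective f ∧ ∀ p, (G r).Adj u (f p) ∧ (G r).Adj v (f p) := by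
  have : ∀ {u v : V r} {f : P → V r}, Arc u v → Injective f →
      ¬ ∀ p, (G r).Adj u (f p) ∧ (G r).Adj v (f p) := fun {u v f} a i h => by
    have e := fun p => cn a (h p).1 (h p).2
    obtain ⟨p, hp⟩ := Finite.surjective_of_injective (f := fun p => (f p).2 u.1) (fun p q k =>
      i (Prod.ext ((e p).1.trans (e q).1.symm) (funext fun j => by
        by_cases b : j = u.1
        exacts [b ▸ k, ((e p).2.2 j b).symm.trans ((e q).2.2 j b)]))) (u.2 u.1)
    exact pi _ (hp ▸ (e p).2.1)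
  refine ⟨fun h => ⟨.inl h, fun p => (u.1 + 1, update u.2 u.1 p), fun p q e =>
    update_injective u.2 _ (congrArg Prod.snd e), fun p => ⟨.inr (.inl ⟨rfl, fun j e =>
      (update_of_ne e _ _).symm⟩), .inr (.inl ⟨by rw [h.1], fun j e => ?_⟩)⟩⟩, ?_⟩
  · rw [h.1] at e
    exact (h.2.2 j e).symm.trans (update_of_ne e _ _).symm
  rintro ⟨a | a | a, f, i, h⟩
  exacts [a, (this a i h).elim, (this a i fun p => (h p).symm).elim]

lemma ar {u v : V r} : Arc u v ↔ (G r).Adj u v ∧ ¬ PE u v ∧ ∃ w, PE u w ∧ (G r).Adj v w := by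
  constructor
  · intro h
    obtain ⟨p, hp⟩ := (by decide +kernel : ∀ a, ∃ p, pa a p) (u.2 u.1)
    exact ⟨.inr (.inl h), fun e => by have := e.1; have := h.1; omega, (u.1, update u.2 u.1 p),
      ⟨rfl, by simpa, fun j e => (update_of_ne e _ _).symm⟩,
      .inr (.inr ⟨h.1, fun j e => (update_of_ne e _ _).trans (h.2 j e)⟩)⟩
  rintro ⟨a | a | a, b, w, c, d⟩
  · exact (b a).elim
  · exact a
  have := (cn a d (.inl c)).1
  have := c.1
  have := a.1
  omega

lemma mpe (α : G r ≃g G r) {u v : V r} : PE (α u) (α v) ↔ PE u v := by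
  have : ∀ (α : G r ≃g G r) {u v : V r}, PE u v → PE (α u) (α v) := fun α u v h => by
    obtain ⟨a, f, i, h⟩ := pe.1 h
    exact pe.2 ⟨α.map_adj_iff.2 a, α ∘ f, α.injective.comp i, fun p =>
      ⟨α.map_adj_iff.2 (h p).1, α.map_adj_iff.2 (h p).2⟩⟩
  exact ⟨fun h => by simpa using this α.symm h, this α⟩

lemma mar (α : G r ≃g G r) {u v : V r} (h : Arc u v) : Arc (α u) (α v) := by
  obtain ⟨a, b, w, c, d⟩ := ar.1 h
  exact ar.2 ⟨α.map_adj_iff.2 a, mt (mpe α).1 b, α w, (mpe α).2 c, α.map_adj_iff.2 d⟩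

def Sem (k : ℕ) (u w : V r) : Prop := w.1 = u.1 + k ∧
  ∀ j : ZMod (r + 2), (∀ t : ℕ, t < k → j ≠ u.1 + t) → u.2 j = w.2 j

lemma s0 {u w : V r} (h : Sem 0 u w) : u = w :=
  Prod.ext (by simpa using h.1.symm) (funext fun j => h.2 j (by simp))

lemma s1 {k} {u w : V r} (h : Sem (k + 1) u w) : ∃ v, Sem k u v ∧ Arc v w := by
  refine ⟨(u.1 + k, update w.2 (u.1 + k) (u.2 (u.1 + k))), ⟨rfl, fun j e => ?_⟩,
    by simp [h.1, add_assoc], fun j e => update_of_ne (by simpa using e) _ _⟩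
  by_cases b : j = u.1 + k
  · simp [b]
  · refine (h.2 j fun t ht => ?_).trans (update_of_ne b _ _).symm
    obtain ht | rfl := Nat.lt_succ_iff_lt_or_eq.1 ht
    exacts [e t ht, b]

lemma ms (α : G r ≃g G r) {k} {u : V r} : ∀ {w}, Sem k u w → Sem k (α u) (α w) := by
  induction k with
  | zero => exact fun h => s0 h ▸ ⟨by simp, fun _ _ => rfl⟩
  | succ k ih =>
    intro w h
    obtain ⟨v, a, b⟩ := s1 h
    obtain ⟨a, c⟩ := ih a
    obtain ⟨b, d⟩ := mar α b
    exact ⟨by rw [b, a]; push_cast; ring, fun j e => (c j fun t ht => e t (by omega)).trans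
      (d j (by simpa [a] using e k k.lt_succ_self))⟩

def R (S : Set (V r)) (a b : V r) : Prop := (G r).Adj a b ∧ a ∉ S ∧ b ∉ S

lemma up {S : Set (V r)} {k} {u : V r} : ∀ {w}, Sem k u w → (∀ z ∈ S, z.1 < u.1 ∨ w.1 < z.1) →
    ReflTransGen (R S) u w := by
  induction k with
  | zero => exact fun h _ => s0 h ▸ .refl
  | succ k ih =>
    intro w h e
    obtain ⟨v, a, b⟩ := s1 h
    have := a.1
    have := b.1
    exact (ih a fun z hz => by have := e z hz; omega).tail ⟨.inr (.inl b),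
      fun hz => by have := e _ hz; omega, fun hz => by have := e _ hz; omega⟩

lemma full {u w : V r} (h : u.1 + r + 2 ≤ w.1) : Sem (w.1 - u.1).toNat u w :=
  ⟨by omega, fun j e => (e (j - u.1).val (by have := (j - u.1).val_lt; omega) (by simp)).elim⟩

lemma conn {S : Set (V r)} {u v : V r} (h : (∀ z ∈ S, z.1 < u.1 ∧ z.1 < v.1) ∨
    ∀ z ∈ S, u.1 < z.1 ∧ v.1 < z.1) : ∃ p : (G r).Walk u v, ∀ x ∈ p.support, x ∉ S := by
  have y : ∀ {a b}, ReflTransGen (R S) a b → ReflTransGen (R S) b a := fun h => by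
    induction h with
    | refl => exact .refl
    | tail _ e ih => exact .head ⟨e.1.symm, e.2.2, e.2.1⟩ ih
  have a : ReflTransGen (R S) u v := by
    obtain h | h := h
    · exact (up (full (w := (max u.1 v.1 + r + 2, u.2)) (by simp)) fun z e => .inl (h z e).1).trans
        (y (up (full (by simp)) fun z e => .inl (h z e).2))
    · exact (y (up (full (u := (min u.1 v.1 - r - 2, u.2)) (by simp only; omega)) fun z e =>
        .inr (h z e).1)).trans (up (full (by simp only; omega)) fun z e => .inr (h z e).2)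
  have b : v ∉ S := fun e => h.elim (fun h => lt_irrefl _ (h _ e).2) fun h => lt_irrefl _ (h _ e).2
  clear h
  induction a using ReflTransGen.head_induction_on with
  | refl => exact ⟨.nil, by simpa⟩
  | head e _ ih =>
    obtain ⟨p, hp⟩ := ih
    exact ⟨.cons e.1 p, by simpa using ⟨e.2.1, by simpa using hp⟩⟩

lemma con : (G r).Connected := ⟨fun u v => ⟨(conn (S := ∅) (by simp)).choose⟩⟩

lemma st {u v : V r} (h : (G r).Adj u v) : v.1 ≤ u.1 + 1 ∧ u.1 ≤ v.1 + 1 := by
  obtain h | h | h := h <;> have := h.1 <;> omega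

lemma fl (M : ℤ) : {v : V r | |v.1| ≤ M}.Finite :=
  ((finite_Icc (-M) M).prod finite_univ).subset fun _ e => ⟨abs_le.1 e, trivial⟩

lemma two : TwoEnded (G r) := by
  refine ⟨fun n => (n, default), fun n => (-n, default), ⟨fun _ _ => by simp, fun n =>
    .inr (.inl ⟨by simp, fun _ _ => rfl⟩)⟩, ⟨fun _ _ => by simp, fun n =>
    .inr (.inr ⟨by simp, fun _ _ => rfl⟩)⟩, fun h => ?_, fun f h => ?_⟩
  · obtain ⟨N, h⟩ := h _ (fl 0)
    obtain ⟨p, h⟩ := h N le_rfl N le_rfl
    have : ∀ {u v} (p : (G r).Walk u v), (∀ x ∈ p.support, ¬ |x.1| ≤ 0) → 0 ≤ u.1 → 0 < v.1 := by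
      intro u v p
      induction p with
      | nil => simp only [Walk.support_nil, List.mem_singleton, forall_eq, abs_nonpos_iff]; omega
      | cons e p ih =>
        simp only [Walk.support_cons, List.forall_mem_cons]
        exact fun a b => ih a.2 (by have := st e; have := a.1; rw [abs_nonpos_iff] at this; omega)
    have := this p h (by simp)
    simp only at this
    omega
  have ev : ∀ M, ∃ N, ∀ n ≥ N, M < |(f n).1| := fun M => by
    obtain ⟨N, e⟩ := ((fl M).preimage h.1.injOn).bddAbove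
    exact ⟨N + 1, fun n a => not_le.1 fun b => by have := e b; omega⟩
  obtain ⟨N, e⟩ := ev 0
  have sg : (∀ n ≥ N, 0 < (f n).1) ∨ ∀ n ≥ N, (f n).1 < 0 := by
    refine (lt_or_gt_of_ne (abs_pos.1 (e N le_rfl))).symm.imp (fun a n b => ?_) fun a n b => ?_
    all_goals
      induction b with
      | refl => exact a
      | @step n b ih =>
        have := st (h.2 n)
        have := abs_pos.1 (e (n + 1) (Nat.le_succ_of_le b))
        rw [Nat.succ_eq_add_one]
        omega
  refine sg.imp (fun a S hS => ?_) fun a S hS => ?_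
  all_goals
    obtain ⟨M, b⟩ := (hS.image fun v => |v.1|).bddAbove
    obtain ⟨K, c⟩ := ev M
    refine ⟨max (max N K) (M.toNat + 1), fun m hm n hn => conn ?_⟩
    have := a m (by omega)
    have := lt_abs.1 (c m (by omega))
  · exact .inl fun z hz => by have := abs_le.1 (b ⟨z, hz, rfl⟩); simp only; omega
  · exact .inr fun z hz => by have := abs_le.1 (b ⟨z, hz, rfl⟩); simp only; omega

lemma ht (α : G r ≃g G r) (u v : V r) : (α u).1 - u.1 = (α v).1 - v.1 := by
  obtain ⟨p⟩ := con.1 u v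
  induction p with
  | nil => rfl
  | cons e _ ih =>
    rw [← ih]
    obtain e | e | e := e
    · rw [((mpe α).2 e).1, e.1]
    all_goals rw [(mar α e).1, e.1]; ring

lemma fx (γ : G r ≃g G r) (h : ∀ v, (γ v).1 = v.1) (i : ∀ v, γ (γ v) = v) : ∃ v, γ v = v := by
  have k : ∀ (j : ℤ) x y, x j = y j → (γ (j, x)).2 j = (γ (j, y)).2 j := by
    intro j x y e
    have q : ∀ j' : ZMod (r + 2), (∀ t : ℕ, t < r + 1 → j' ≠ (j - (r + 1 : ℕ) : ℤ) + t) ↔
        j' = j := fun j' => by
      have z : ((r + 2 : ℕ) : ZMod (r + 2)) = 0 := by simp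
      push_cast at z ⊢
      constructor
      · intro a
        by_contra b
        have c := (j' - j - 1).val_lt
        have d : (j' - j - 1).val ≠ r + 1 := fun d => b (by
          have := congrArg (Nat.cast : ℕ → ZMod (r + 2)) d
          rw [ZMod.natCast_zmod_val] at this
          push_cast at this
          linear_combination this + z)
        refine a (j' - j - 1).val (by omega) ?_
        rw [ZMod.natCast_zmod_val]
        linear_combination z
      · rintro rfl t a b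
        have : ((t : ℕ) : ZMod (r + 2)) = (r + 1 : ℕ) := by push_cast; linear_combination -b
        have := congrArg ZMod.val this
        rw [ZMod.val_cast_of_lt (by omega), ZMod.val_cast_of_lt (by omega)] at this
        omega
    have : ∀ y, x j = y j → (γ (j - (r + 1 : ℕ), x)).2 j = (γ (j, y)).2 j := fun y e =>
      (ms γ (k := r + 1) (u := (j - (r + 1 : ℕ), x)) (w := (j, y)) ⟨by simp, fun j' a =>
        (q j').1 a ▸ e⟩).2 j (by rw [h]; exact (q j).2 rfl)
    exact (this x rfl).symm.trans (this y e)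
  choose p hp using fun j : ℤ => pf (fun p => (γ (j, fun _ => p)).2 j)
    (fun p q e => by
      have := ((mpe γ).2 (show PE (j, fun _ => p) (j, update (fun _ => p) j q) from
        ⟨rfl, by simpa, fun l e => (update_of_ne (f := fun _ => p) e _).symm⟩)).2.1
      rwa [h, k j (update _ j q) (fun _ => q) (by simp)] at this)
    fun p => (k j (fun _ => (γ (j, fun _ => p)).2 j) (γ (j, fun _ => p)).2 rfl).trans (by
      rw [show (j, (γ (j, fun _ => p)).2) = γ (j, fun _ => p) from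
        Prod.ext (h (j, fun _ => p)).symm rfl, i])
  refine ⟨(0, fun j => p j.val), Prod.ext (h _) (funext fun j => ?_)⟩
  have e : ((j.val : ℤ) : ZMod (r + 2)) = j := by simp
  have := (k j.val (fun j => p j.val) (fun _ => p j.val) (by rw [e])).trans (hp j.val)
  rw [e] at this
  refine ((ms γ (k := j.val) (u := (0, fun j => p j.val)) (w := (j.val, fun j => p j.val))
    ⟨(zero_add _).symm, fun _ _ => rfl⟩).2 j fun t a b => ?_).trans this
  have := congrArg ZMod.val b
  rw [h, Int.cast_zero, zero_add, ZMod.val_cast_of_lt (a.trans j.val_lt)] at this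
  omega

theorem result (n : ℕ) : ∃ (V : Type) (G : SimpleGraph V), G.Connected ∧
    (∀ v, (G.neighborSet v).ncard = 23) ∧ (∀ u v, ∃ φ : G ≃g G, φ u = v) ∧ TwoEnded G ∧
    ∀ Γ : Subgroup (G ≃g G), (∀ γ ∈ Γ, ∀ v, γ v = v → γ = 1) →
      n < ENat.card (MulAction.orbitRel.Quotient Γ V) := by
  refine ⟨V n, G n, con, reg, vt, two, fun Γ hΓ => ?_⟩
  let Δ : Subgroup Γ :=
    { carrier := {γ | ∀ v, (γ.1 v).1 = v.1}
      mul_mem' := fun a b v => (a _).trans (b v)
      one_mem' := fun _ => rfl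
      inv_mem' := fun {γ} a v => (a _).symm.trans (congrArg _ (γ.1.apply_symm_apply v)) }
  let : MulAction Δ (ZMod (n + 2) → P) :=
    { smul := fun γ x => (γ.1.1 (0, x)).2
      one_smul := fun _ => rfl
      mul_smul := fun a b x => congrArg (fun v => (a.1.1 v).2) (Prod.ext (b.2 _) rfl) }
  have e := MulAction.selfEquivOrbitsQuotientProd (G := Δ) (X := ZMod (n + 2) → P) fun x =>
    eq_bot_iff.2 fun γ a => Subtype.ext (Subtype.ext (hΓ _ γ.1.2 (0, x) (Prod.ext (γ.2 _) a)))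
  have c := Nat.card_congr e
  have : Finite Δ := have := Finite.of_equiv _ e; Finite.prod_right
    (Quotient (MulAction.orbitRel Δ (ZMod (n + 2) → P)))
  have o : ¬ 2 ∣ Nat.card Δ := fun d => by
    obtain ⟨γ, a⟩ := exists_prime_orderOf_dvd_card' 2 d
    obtain ⟨v, b⟩ := fx γ.1.1 γ.2 fun v =>
      congrArg (fun g : Δ => g.1.1 v) (show γ * γ = 1 by rw [← pow_two, ← a, pow_orderOf_eq_one])
    obtain rfl : γ = 1 := Subtype.ext (Subtype.ext (hΓ _ γ.1.2 v b))
    simp at a
  rw [Nat.card_prod, Nat.card_fun, Nat.card_zmod] at c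
  have d := Nat.le_of_dvd Nat.card_pos ((Nat.Coprime.pow_left (n + 2)
    ((Nat.prime_two.coprime_iff_not_dvd).2 o)).dvd_of_dvd_mul_right
      (by rw [← c]; exact pow_dvd_pow_of_dvd (by simp) _))
  refine lt_of_lt_of_le ?_ (ENat.card_le_card_of_injective (f := Quotient.map'
    (s₁ := MulAction.orbitRel Δ (ZMod (n + 2) → P)) (fun x => ((0, x) : V n))
      fun x y ⟨γ, a⟩ => ⟨γ.1, Prod.ext (γ.2 _) a⟩) ?_)
  · rw [ENat.card_eq_coe_natCard, Nat.cast_lt]
    exact (Nat.lt_two_pow_self.trans_le (Nat.pow_le_pow_right two_pos (n.le_add_right 2))).trans_le d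
  rintro ⟨x⟩ ⟨y⟩ a
  obtain ⟨γ, a⟩ := Quotient.exact a
  refine Quotient.sound ⟨⟨γ, fun v => ?_⟩, congrArg Prod.snd a⟩
  have := ht γ.1 v (0, y)
  have := congrArg Prod.fst a
  change (γ.1 (0, y)).1 = 0 at this
  omega

end Pool.Agent.Results.MP_e6b5d0_co.No
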